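import Mathlib
import Pool.Agent.R259.BesG
import Pool.Agent.R259.One

set_option autoImplicit false

namespace Pool.Agent.Results.MP_f41da7_an.ExactlyTwo

/-- The even entire function `G_{ν,n}` with `J_ν^{(n)}(z) = z^{ν-n} G_{ν,n}(z)`, that is
`∑ (-1)^m (ν+2m)(ν+2m-1)⋯(ν+2m-n+1) / (m! Γ(ν+m+1) 2^{ν+2m}) z^{2m}`. Its nonzero zeros are the
zeros of the `n`-th derivative of `J_ν`. -/
noncomputable def G (ν : ℝ) (n : ℕ) (z : ℂ) : ℂ :=
  ∑' m : ℕ, (((-1) ^ m * (∏ i ∈ Finset.range n, (ν + 2 * m - i)) /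
    (m.factorial * Real.Gamma (ν + m + 1) * (2 : ℝ) ^ (ν + 2 * m)) : ℝ) : ℂ) * z ^ (2 * m)

/-- For `ν ∈ [-2.1, -2)` the first derivative of `J_ν` has exactly two nonreal zeros; they are
purely imaginary, `± i y`, and simple. -/
theorem result : ∀ ν : ℝ, -(21 / 10) ≤ ν → ν < -2 → ∃ y : ℝ, 0 < y ∧
    {z : ℂ | G ν 1 z = 0 ∧ z.im ≠ 0} = {(y : ℂ) * Complex.I, -((y : ℂ) * Complex.I)} ∧
    analyticOrderAt (G ν 1) ((y : ℂ) * Complex.I) = 1 ∧
    analyticOrderAt (G ν 1) (-((y : ℂ) * Complex.I)) = 1 := by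
  intro ν h1 h2
  obtain ⟨P, hP, hc, hpos, hneg⟩ := Pool.Agent.R259.mainA h1 h2
  set F : ℂ → ℂ := fun z : ℂ => ∑' m : ℕ, (((2 * m + ν) /
    (m.factorial * Real.Gamma (m + ν + 1)) : ℝ) : ℂ) * z ^ m with hF
  obtain ⟨x0, hx0, hF0, hF1, huniq⟩ := hP.one_pos hc hneg hpos
  have hFz : F 0 ≠ 0 := by
    have h3 := hP.iter_zero 0 (hc 0)
    rw [iteratedDeriv_zero] at h3
    rw [h3]
    have : ((Nat.factorial 0 : ℕ) : ℝ) * ((2 * ((0 : ℕ) : ℝ) + ν) /
        ((Nat.factorial 0 : ℕ) * Real.Gamma ((0 : ℕ) + ν + 1))) ≠ 0 :=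
      mul_ne_zero (by positivity) hneg.ne
    exact_mod_cast this
  set κ : ℝ := ((2 : ℝ) ^ ν)⁻¹ with hκ
  have hκ0 : κ ≠ 0 := by positivity
  have e : ∀ z, G ν 1 z = (κ : ℂ) * F (-(z / 2) ^ 2) := by
    intro z
    unfold G
    rw [hF, ← tsum_mul_left]
    refine tsum_congr fun m => ?_
    have h3 : (2 : ℝ) ^ (ν + 2 * m) = 2 ^ ν * 2 ^ (2 * m) := by
      rw [show ν + 2 * (m : ℝ) = ν + ((2 * m : ℕ) : ℝ) by push_cast; ring,
        Real.rpow_add (by norm_num), Real.rpow_natCast]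
    rw [Finset.prod_range_one, neg_pow ((z / 2) ^ 2) m, ← pow_mul, div_pow,
      show ν + m + 1 = m + ν + 1 by ring, h3, hκ]
    push_cast
    rw [sub_zero]
    generalize (Real.Gamma (m + ν + 1) : ℂ) = g
    generalize (((2 : ℝ) ^ ν : ℝ) : ℂ) = w
    ring
  have hG0 : ∀ z, G ν 1 z = 0 ↔ F (-(z / 2) ^ 2) = 0 := by
    intro z
    rw [e, mul_eq_zero]
    constructor
    · intro h3
      exact h3.resolve_left (by exact_mod_cast hκ0)
    · exact Or.inr
  have hreal := hP.zeros_real hFz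
  set s : ℝ := Real.sqrt x0 with hs
  have hs0 : 0 < s := Real.sqrt_pos.2 hx0
  have hss : s ^ 2 = x0 := Real.sq_sqrt hx0.le
  have hI : (Complex.I : ℂ) ^ 2 = -1 := Complex.I_sq
  -- the two zeros
  have hval : ∀ ε : ℂ, ε ^ 2 = 1 → -((ε * (((2 * s : ℝ) : ℂ) * Complex.I)) / 2) ^ 2 = (x0 : ℂ) := by
    intro ε hε
    have h3 : ((ε * (((2 * s : ℝ) : ℂ) * Complex.I)) / 2) ^ 2 = ε ^ 2 * ((s ^ 2 : ℝ) : ℂ) * Complex.I ^ 2 := by
      push_cast; ring
    rw [h3, hε, hI, hss]; ring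
  have hzero : ∀ ε : ℂ, ε ^ 2 = 1 → G ν 1 (ε * (((2 * s : ℝ) : ℂ) * Complex.I)) = 0 := by
    intro ε hε
    rw [hG0, hval ε hε]; exact hF0
  have hFd := hP.differentiable
  have hGd : Differentiable ℂ (G ν 1) := by
    have : G ν 1 = fun z => (κ : ℂ) * F (-(z / 2) ^ 2) := by ext z; exact e z
    rw [this]
    exact (hFd.comp (by fun_prop)).const_mul _
  have hderiv : ∀ ε : ℂ, ε ^ 2 = 1 → deriv (G ν 1) (ε * (((2 * s : ℝ) : ℂ) * Complex.I)) ≠ 0 := by
    intro ε hε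
    set w := ε * (((2 * s : ℝ) : ℂ) * Complex.I) with hw
    have h3 : G ν 1 = fun z => (κ : ℂ) * F (-(z / 2) ^ 2) := by ext z; exact e z
    have h4 : HasDerivAt (fun z : ℂ => -(z / 2) ^ 2) (-(w / 2)) w := by
      have h5 := (((hasDerivAt_id w).div_const 2).pow 2).neg
      refine h5.congr_deriv ?_
      simp
      ring
    have h5 : HasDerivAt F (deriv F x0) (-(w / 2) ^ 2) := by
      rw [hval ε hε]
      exact (hFd _).hasDerivAt
    have h6 := (h5.comp w h4).const_mul (κ : ℂ)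
    rw [h3]
    have h7 : deriv (fun z => (κ : ℂ) * F (-(z / 2) ^ 2)) w = (κ : ℂ) * (deriv F x0 * -(w / 2)) :=
      h6.deriv
    rw [h7]
    have h8 : w ≠ 0 := by
      intro h9
      have h10 : w ^ 2 = 0 := by rw [h9]; ring
      have h11 : w ^ 2 = ε ^ 2 * ((4 * s ^ 2 : ℝ) : ℂ) * Complex.I ^ 2 := by
        rw [hw]; push_cast; ring
      rw [h11, hε, hI, hss] at h10
      have : ((4 * x0 : ℝ) : ℂ) = 0 := by linear_combination -h10
      have h12 : 4 * x0 = 0 := by exact_mod_cast this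
      linarith
    refine mul_ne_zero (by exact_mod_cast hκ0) (mul_ne_zero hF1 ?_)
    exact neg_ne_zero.2 (div_ne_zero h8 two_ne_zero)
  have hord : ∀ ε : ℂ, ε ^ 2 = 1 → analyticOrderAt (G ν 1) (ε * (((2 * s : ℝ) : ℂ) * Complex.I)) = 1 :=
    fun ε hε => (hGd.analyticAt _).analyticOrderAt_eq_one_of_zero_deriv_ne_zero (hzero ε hε)
      (hderiv ε hε)
  have o1 := hord 1 (by ring)
  have o2 := hord (-1) (by ring)
  have z1 := hzero 1 (by ring)
  have z2 := hzero (-1) (by ring)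
  rw [one_mul] at o1 z1
  rw [neg_one_mul] at o2 z2
  refine ⟨2 * s, by linarith, ?_, o1, o2⟩
  ext z
  simp only [Set.mem_insert_iff, Set.mem_singleton_iff]
  constructor
  · rintro ⟨h3, h4⟩
    rw [hG0] at h3
    have h5 := hreal _ h3
    have e2 : (-(z / 2) ^ 2) = -((z ^ 2) / 4) := by ring
    have e3 : (z ^ 2).im = 2 * z.re * z.im := by rw [pow_two, Complex.mul_im]; ring
    have e4 : (z ^ 2).re = z.re ^ 2 - z.im ^ 2 := by rw [pow_two, Complex.mul_re]; ring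
    have h6 : (-((z ^ 2) / 4)).im = -((z ^ 2).im / 4) := by
      rw [show (4 : ℂ) = ((4 : ℝ) : ℂ) by norm_num, Complex.neg_im, Complex.div_ofReal_im]
    rw [e2, h6, e3] at h5
    have h7 : z.re = 0 := by
      have : z.re * z.im = 0 := by linarith
      exact (mul_eq_zero.1 this).resolve_right h4
    have h8 : z = ((z.im : ℝ) : ℂ) * Complex.I := by
      apply Complex.ext <;> simp [h7]
    have h9 : (-(z / 2) ^ 2) = (((z.im / 2) ^ 2 : ℝ) : ℂ) := by
      rw [h8]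
      simp only [Complex.mul_im, Complex.ofReal_re, Complex.I_im, mul_one, Complex.ofReal_im,
        Complex.I_re, mul_zero, add_zero]
      have : ((z.im : ℂ) * Complex.I / 2) ^ 2 = ((z.im : ℂ) / 2) ^ 2 * Complex.I ^ 2 := by ring
      rw [this, hI]
      push_cast; ring
    rw [h9] at h3
    have h10 := huniq _ (sq_nonneg _) h3
    rw [← hss] at h10
    rcases sq_eq_sq_iff_eq_or_eq_neg.1 h10 with h11 | h11
    · left
      rw [h8, show z.im = 2 * s by linarith]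
    · right
      rw [h8, show z.im = -(2 * s) by linarith]
      push_cast; ring
  · rintro (rfl | rfl)
    · exact ⟨z1, by simp; exact hs0.ne'⟩
    · exact ⟨z2, by simp; exact hs0.ne'⟩

/-- The statement asked about in Q1 fails (take `n = 1`, `s = 1`, `ν = -2.1`, where six nonreal
zeros are predicted). Zeros are counted with multiplicity. -/
lemma negation : ¬ ∀ (n s : ℕ) (ν : ℝ), (n : ℝ) - 2 * s - 2 < ν → ν < (n : ℝ) - 2 * s - 1 →
    (∑' z : {z : ℂ | G ν n z = 0 ∧ z.im ≠ 0}, analyticOrderAt (G ν n) z) = 4 * s + 2 ∧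
      (∑' z : {z : ℂ | G ν n z = 0 ∧ z.im ≠ 0 ∧ z.re = 0}, analyticOrderAt (G ν n) z) = 2 := by
  intro h
  have h1 := (h 1 1 (-(21 / 10)) (by norm_num) (by norm_num)).1
  obtain ⟨y, hy, hS, ho1, ho2⟩ := result (-(21 / 10)) le_rfl (by norm_num)
  rw [hS] at h1
  have hne : (y : ℂ) * Complex.I ≠ -((y : ℂ) * Complex.I) := by
    intro h2
    have h3 := congrArg Complex.im h2
    simp at h3
    linarith
  have h2 : ∑' z : ({(y : ℂ) * Complex.I, -((y : ℂ) * Complex.I)} : Set ℂ),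
      analyticOrderAt (G (-(21 / 10)) 1) z = 2 := by
    have h3 : ({(y : ℂ) * Complex.I, -((y : ℂ) * Complex.I)} : Set ℂ) =
        ((({(y : ℂ) * Complex.I, -((y : ℂ) * Complex.I)} : Finset ℂ)) : Set ℂ) := by simp
    rw [h3, Finset.tsum_subtype' ({(y : ℂ) * Complex.I, -((y : ℂ) * Complex.I)} : Finset ℂ)
      (fun z => analyticOrderAt (G (-(21 / 10)) 1) z), Finset.sum_pair hne, ho1, ho2]
    norm_num
  rw [h2] at h1
  norm_num at h1

end Pool.Agent.Results.MP_f41da7_an.ExactlyTwo
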